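import Pool.Agent.Work.MP_db9399_nc.Base

/-!
# MP_db9399, THEOREM NC, block ABSA (helper99): the design `w_i w_j ↦ (i + j) / 2`
-/

set_option autoImplicit false

namespace Pool.Agent.Work.MP_db9399_nc.helper99

open Finset Classical
open Pool.Agent.Work.MP_db9399_all (nb)
open Pool.Agent.Work.MP_db9399_nc

universe u

theorem stmt_ABSA : Stmt_ABSA.{u} := by
  intro V _ G W E hodd hc
  obtain ⟨k, hk⟩ := hodd
  have eE : E ≃ ZMod (2 * k + 1) :=
    Fintype.equivOfCardEq (by rw [Fintype.card_coe, ZMod.card, hk])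
  have eW : W ≃ ZMod (2 * k + 1) :=
    Fintype.equivOfCardEq (by rw [Fintype.card_coe, ZMod.card, hc, hk])
  obtain ⟨t, ht⟩ : ∃ t : ZMod (2 * k + 1), 2 * t = 1 := by
    refine ⟨((k + 1 : ℕ) : ZMod (2 * k + 1)), ?_⟩
    have h : ((2 * k + 1 : ℕ) : ZMod (2 * k + 1)) = 0 := ZMod.natCast_self _
    push_cast at h ⊢
    linear_combination h
  have two_inj : ∀ x y : ZMod (2 * k + 1), 2 * x = 2 * y → x = y := by
    intro x y h
    linear_combination (-x) * ht + t * h + y * ht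
  let par : E → W → W := fun b v => eW.symm (2 * eE b - eW v)
  have par_par : ∀ b v, par b (par b v) = v := by
    intro b v
    simp only [par, Equiv.apply_symm_apply, sub_sub_cancel, Equiv.symm_apply_apply]
  have par_inj : ∀ b b' v, par b v = par b' v → b = b' := by
    intro b b' v h
    have h1 := eW.symm.injective h
    exact eE.injective (two_inj _ _ (by linear_combination h1))
  let K : ℕ → V → V := fun b v => if h : b ∈ E ∧ v ∈ W then
    (if G.Adj v (par ⟨b, h.1⟩ ⟨v, h.2⟩ : V) then (par ⟨b, h.1⟩ ⟨v, h.2⟩ : V) else v) else v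
  have K_of : ∀ (b : ℕ) (hb : b ∈ E) (v : V) (hv : v ∈ W), G.Adj v (par ⟨b, hb⟩ ⟨v, hv⟩ : V) →
      K b v = par ⟨b, hb⟩ ⟨v, hv⟩ := by
    intro b hb v hv h
    simp only [K]
    rw [dif_pos ⟨hb, hv⟩, if_pos h]
  have K_ne : ∀ (b : ℕ) (v : V), K b v ≠ v → ∃ (hb : b ∈ E) (hv : v ∈ W),
      G.Adj v (par ⟨b, hb⟩ ⟨v, hv⟩ : V) ∧ K b v = par ⟨b, hb⟩ ⟨v, hv⟩ := by
    intro b v h
    by_cases h1 : b ∈ E ∧ v ∈ W
    · by_cases h2 : G.Adj v (par ⟨b, h1.1⟩ ⟨v, h1.2⟩ : V)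
      · exact ⟨h1.1, h1.2, h2, K_of b h1.1 v h1.2 h2⟩
      · exfalso
        apply h
        simp only [K]
        rw [dif_pos h1, if_neg h2]
    · exfalso
      apply h
      simp only [K]
      rw [dif_neg h1]
  have hW : W.Nonempty := by
    rw [← Finset.card_pos]
    omega
  obtain ⟨w0, hw0⟩ := hW
  let μ : ℕ → V := fun b => if h : b ∈ E then (eW.symm (eE ⟨b, h⟩) : V) else w0
  have μ_of : ∀ (b : ℕ) (hb : b ∈ E), μ b = (eW.symm (eE ⟨b, hb⟩) : V) := by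
    intro b hb
    simp only [μ]
    rw [dif_pos hb]
  refine ⟨μ, K, ⟨?_, ?_, ?_⟩, ?_, ?_, ?_, ?_⟩
  · intro b _ v
    by_cases h : K b v = v
    · rw [h, h]
    · obtain ⟨hb, hv, h1, h2⟩ := K_ne b v h
      rw [h2]
      have h3 : par ⟨b, hb⟩ ⟨(par ⟨b, hb⟩ ⟨v, hv⟩ : V), (par ⟨b, hb⟩ ⟨v, hv⟩).2⟩ = ⟨v, hv⟩ :=
        par_par _ _
      have h4 := K_of b hb (par ⟨b, hb⟩ ⟨v, hv⟩ : V) (par ⟨b, hb⟩ ⟨v, hv⟩).2 (by
        rw [h3]; exact h1.symm)
      rw [h4, h3]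
  · intro b _ v h
    obtain ⟨hb, hv, h1, h2⟩ := K_ne b v h
    rw [h2]
    exact h1
  · intro b _ b' _ hbb v h h'
    obtain ⟨hb, hv, _, h2⟩ := K_ne b v h
    have h3 : K b' v ≠ v := by rw [← h']; exact h
    obtain ⟨hb', hv', _, h2'⟩ := K_ne b' v h3
    rw [h2, h2'] at h'
    have h4 := par_inj _ _ _ (Subtype.ext h')
    apply hbb
    exact congrArg Subtype.val h4
  · intro b hb
    rw [μ_of b hb]
    refine ⟨(eW.symm (eE ⟨b, hb⟩)).2, ?_⟩
    by_contra h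
    obtain ⟨hb', hv, h1, _⟩ := K_ne b _ h
    have h3 : par ⟨b, hb'⟩ ⟨(eW.symm (eE ⟨b, hb⟩) : V), hv⟩ = eW.symm (eE ⟨b, hb⟩) := by
      have h4 : (⟨(eW.symm (eE ⟨b, hb⟩) : V), hv⟩ : W) = eW.symm (eE ⟨b, hb⟩) := rfl
      rw [h4]
      simp only [par, Equiv.apply_symm_apply]
      congr 1
      ring
    rw [h3] at h1
    exact G.loopless.irrefl _ h1
  · intro b hb b' hb' h
    rw [μ_of b hb, μ_of b' hb'] at h
    have h1 := eE.injective (eW.symm.injective (Subtype.ext h))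
    exact congrArg Subtype.val h1
  · intro b _ v h
    obtain ⟨_, hv, _, _⟩ := K_ne b v h
    exact hv
  · intro v hv w hw hvw
    obtain ⟨b, hb⟩ : ∃ b : E, b = eE.symm (t * (eW ⟨v, hv⟩ + eW ⟨w, hw⟩)) := ⟨_, rfl⟩
    refine ⟨b, b.2, ?_⟩
    have h3 : par b ⟨v, hv⟩ = ⟨w, hw⟩ := by
      simp only [par]
      rw [Equiv.symm_apply_eq, hb, Equiv.apply_symm_apply]
      linear_combination (eW ⟨v, hv⟩ + eW ⟨w, hw⟩) * ht
    have h4 := K_of b b.2 v hv (by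
      have h5 : par ⟨(b : ℕ), b.2⟩ ⟨v, hv⟩ = ⟨w, hw⟩ := h3
      rw [h5]
      exact hvw)
    rw [h4]
    exact congrArg Subtype.val h3

end Pool.Agent.Work.MP_db9399_nc.helper99
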