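import Pool.Agent.Work.MP_db9399_nc.Base

/-!
# MP_db9399, THEOREM NC, block NE (helper99): injective choice from almost complete lists
-/

set_option autoImplicit false

namespace Pool.Agent.Work.MP_db9399_nc.helper99

open Finset Classical
open Pool.Agent.Work.MP_db9399_nc

universe u

theorem stmt_NE : Stmt_NE.{u} := by
  intro V _ S P Z m hSP hZ hP
  have hall : ∀ T : Finset S, T.card ≤ (T.biUnion (fun s => P \ Z s)).card := by
    intro T
    rcases T.eq_empty_or_nonempty with rfl | ⟨s, hs⟩
    · simp
    · have hTS : T.card ≤ S.card := by
        have := Finset.card_le_univ T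
        rwa [Fintype.card_coe] at this
      by_cases hc : T.card + m ≤ P.card
      · have h1 : P \ Z s ⊆ T.biUnion (fun s => P \ Z s) :=
          Finset.subset_biUnion_of_mem (fun s : S => P \ Z s) hs
        have h2 := Finset.card_le_card h1
        have h3 := Finset.le_card_sdiff (Z s) P
        have h4 := hZ s s.2
        omega
      · have h1 : P ⊆ T.biUnion (fun s => P \ Z s) := by
          intro α hα
          by_contra hn
          have h2 : T.map (Function.Embedding.subtype _) ⊆ S.filter (fun s => α ∈ Z s) := by
            intro x hx
            rw [Finset.mem_map] at hx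
            obtain ⟨y, hy, rfl⟩ := hx
            rw [Finset.mem_filter]
            refine ⟨y.2, ?_⟩
            by_contra h3
            apply hn
            rw [Finset.mem_biUnion]
            exact ⟨y, hy, Finset.mem_sdiff.2 ⟨hα, h3⟩⟩
          have h3 := Finset.card_le_card h2
          rw [Finset.card_map] at h3
          have h4 := hP α hα
          omega
        have h2 := Finset.card_le_card h1
        omega
  obtain ⟨f, hf, hf'⟩ := (Finset.all_card_le_biUnion_card_iff_exists_injective _).1 hall
  refine ⟨fun v => if h : v ∈ S then f ⟨v, h⟩ else 0, ?_, ?_⟩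
  · intro v hv w hw h
    have hv' : v ∈ S := hv
    have hw' : w ∈ S := hw
    simp only [dif_pos hv', dif_pos hw'] at h
    exact congrArg Subtype.val (hf h)
  · intro s hs
    simp only [dif_pos hs]
    exact Finset.mem_sdiff.1 (hf' ⟨s, hs⟩)

end Pool.Agent.Work.MP_db9399_nc.helper99
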