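import Pool.Agent.Work.MP_db9399_nc.Base

/-!
# MP_db9399, THEOREM NC, block CUT (helper99): two types of spots
-/

set_option autoImplicit false

namespace Pool.Agent.Work.MP_db9399_nc.helper99

open Finset Classical
open Pool.Agent.Work.MP_db9399_nc

universe u

section
variable {V : Type u} [Fintype V]

/-- the pairs with ends of different types -/
noncomputable def cp (Y : SimpleGraph V) (f : V → V) (τ : V → Bool) : Finset (V × V) :=
  univ.filter (fun p => Y.Adj p.1 p.2 ∧ τ (f p.1) ≠ τ (f p.2))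

theorem mem_cp {Y : SimpleGraph V} {f : V → V} {τ : V → Bool} {p : V × V} :
    p ∈ cp Y f τ ↔ Y.Adj p.1 p.2 ∧ τ (f p.1) ≠ τ (f p.2) := by simp [cp]

theorem cp_split (Y : SimpleGraph V) (f : V → V) (τ : V → Bool) (i : V)
    (hf : ∀ v w, Y.Adj v w → f v ≠ f w) :
    (cp Y f τ).card = 2 * ((cp Y f τ).filter (fun p => f p.1 = i)).card +
      (((cp Y f τ).filter (fun p => ¬ f p.1 = i)).filter (fun p => ¬ f p.2 = i)).card := by
  have h1 := Finset.card_filter_add_card_filter_not (s := cp Y f τ) (fun p => f p.1 = i)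
  have h2 := Finset.card_filter_add_card_filter_not
    (s := (cp Y f τ).filter (fun p => ¬ f p.1 = i)) (fun p => f p.2 = i)
  have h3 : (((cp Y f τ).filter (fun p => ¬ f p.1 = i)).filter (fun p => f p.2 = i)).card =
      ((cp Y f τ).filter (fun p => f p.1 = i)).card := by
    apply Finset.card_bij' (fun p _ => Prod.swap p) (fun p _ => Prod.swap p)
    · intro p hp
      rw [Finset.mem_filter, Finset.mem_filter, mem_cp] at hp
      rw [Finset.mem_filter, mem_cp]
      exact ⟨⟨hp.1.1.1.symm, hp.1.1.2.symm⟩, hp.2⟩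
    · intro p hp
      rw [Finset.mem_filter, mem_cp] at hp
      rw [Finset.mem_filter, Finset.mem_filter, mem_cp]
      refine ⟨⟨⟨hp.1.1.symm, hp.1.2.symm⟩, ?_⟩, hp.2⟩
      intro h
      exact hf _ _ hp.1.1 (hp.2.trans h.symm)
    · intro p _; exact Prod.swap_swap p
    · intro p _; exact Prod.swap_swap p
  omega

theorem stmt_CUT : Stmt_CUT.{u} := by
  intro V _ Y f hf
  obtain ⟨τ, -, hτ⟩ := Finset.exists_max_image (univ : Finset (V → Bool))
    (fun τ => (cp Y f τ).card) ⟨fun _ => true, Finset.mem_univ _⟩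
  refine ⟨τ, fun i => ?_⟩
  have hmax := hτ (Function.update τ i (!τ i)) (Finset.mem_univ _)
  rw [cp_split Y f τ i hf, cp_split Y f (Function.update τ i (!τ i)) i hf] at hmax
  have h3 : ((cp Y f (Function.update τ i (!τ i))).filter (fun p => ¬ f p.1 = i)).filter
      (fun p => ¬ f p.2 = i) =
      ((cp Y f τ).filter (fun p => ¬ f p.1 = i)).filter (fun p => ¬ f p.2 = i) := by
    ext p
    simp only [Finset.mem_filter, mem_cp]
    constructor
    · rintro ⟨⟨⟨h1, h2⟩, h3⟩, h4⟩
      rw [Function.update_of_ne h3, Function.update_of_ne h4] at h2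
      exact ⟨⟨⟨h1, h2⟩, h3⟩, h4⟩
    · rintro ⟨⟨⟨h1, h2⟩, h3⟩, h4⟩
      refine ⟨⟨⟨h1, ?_⟩, h3⟩, h4⟩
      rw [Function.update_of_ne h3, Function.update_of_ne h4]
      exact h2
  rw [h3] at hmax
  have hA := Finset.card_filter_add_card_filter_not
    (s := (univ : Finset (V × V)).filter (fun p => Y.Adj p.1 p.2 ∧ f p.1 = i))
    (fun p => τ (f p.2) ≠ τ i)
  have h1 : ((univ : Finset (V × V)).filter (fun p => Y.Adj p.1 p.2 ∧ f p.1 = i)).filter
      (fun p => τ (f p.2) ≠ τ i) = (univ : Finset (V × V)).filter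
        (fun p => Y.Adj p.1 p.2 ∧ f p.1 = i ∧ τ (f p.2) ≠ τ i) := by
    ext p
    simp only [Finset.mem_filter, Finset.mem_univ, true_and, and_assoc]
  have h2 : (cp Y f τ).filter (fun p => f p.1 = i) = (univ : Finset (V × V)).filter
        (fun p => Y.Adj p.1 p.2 ∧ f p.1 = i ∧ τ (f p.2) ≠ τ i) := by
    ext p
    simp only [Finset.mem_filter, Finset.mem_univ, true_and, mem_cp]
    constructor
    · rintro ⟨⟨h1, h2⟩, h3⟩
      refine ⟨h1, h3, ?_⟩
      rw [h3] at h2
      exact h2.symm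
    · rintro ⟨h1, h3, h2⟩
      refine ⟨⟨h1, ?_⟩, h3⟩
      rw [h3]
      exact h2.symm
  have h4 : (cp Y f (Function.update τ i (!τ i))).filter (fun p => f p.1 = i) =
      ((univ : Finset (V × V)).filter (fun p => Y.Adj p.1 p.2 ∧ f p.1 = i)).filter
      (fun p => ¬ (τ (f p.2) ≠ τ i)) := by
    ext p
    simp only [Finset.mem_filter, Finset.mem_univ, true_and, mem_cp]
    constructor
    · rintro ⟨⟨h1, h2⟩, h3⟩
      refine ⟨⟨h1, h3⟩, ?_⟩
      have h5 : f p.2 ≠ i := fun h => hf _ _ h1 (h3.trans h.symm)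
      rw [h3, Function.update_self, Function.update_of_ne h5] at h2
      revert h2
      cases τ i <;> cases τ (f p.2) <;> simp
    · rintro ⟨⟨h1, h3⟩, h2⟩
      have h5 : f p.2 ≠ i := fun h => hf _ _ h1 (h3.trans h.symm)
      refine ⟨⟨h1, ?_⟩, h3⟩
      rw [h3, Function.update_self, Function.update_of_ne h5]
      revert h2
      cases τ i <;> cases τ (f p.2) <;> simp
  rw [h1] at hA
  rw [h2, h4] at hmax
  omega

end

end Pool.Agent.Work.MP_db9399_nc.helper99
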